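import Mathlib

/-! For every `K ≥ 3` there are arbitrarily large finite sets of reals compressed by two
different polynomials of degrees two and three: Chebyshev preperiodic cycles. -/

open Polynomial

namespace Pool.Agent.Results.MP_29b953_an.NoUniqueness

/-- `f` is a compressing function for `S`: for some `x₀ ∈ S`, with `N = |S|`,
`S = {x₀, f x₀, …, f^{N-1} x₀}`. -/
def Compresses (f : ℝ[X]) (S : Finset ℝ) : Prop :=
  ∃ x₀ ∈ S, (Finset.range S.card).image (fun i => (fun x => f.eval x)^[i] x₀) = S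

/-- `S` is `K`-compressible. -/
def KCompressible (K : ℕ) (S : Finset ℝ) : Prop :=
  ∃ f : ℝ[X], f.natDegree ≤ K ∧ Compresses f S

/-- `S` has at most one compressing polynomial of degree between `2` and `K`. -/
def AtMostOne (K : ℕ) (S : Finset ℝ) : Prop :=
  ∀ f g : ℝ[X], 2 ≤ f.natDegree → f.natDegree ≤ K → 2 ≤ g.natDegree → g.natDegree ≤ K →
    Compresses f S → Compresses g S → f = g

/-- The points `2 cos (2 π a / n)`. -/
noncomputable def psi (n : ℕ) (a : ℤ) : ℝ := 2 * Real.cos (2 * Real.pi * a / n)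

lemma psi_eq_iff {n : ℕ} (hn : 0 < n) (a b : ℤ) :
    psi n a = psi n b ↔ ((n : ℤ) ∣ b - a ∨ (n : ℤ) ∣ b + a) := by
  have hn' : (n : ℝ) ≠ 0 := by exact_mod_cast hn.ne'
  have hpi : Real.pi ≠ 0 := Real.pi_ne_zero
  unfold psi
  constructor
  · intro h
    have h1 : Real.cos (2 * Real.pi * a / n) = Real.cos (2 * Real.pi * b / n) := by linarith
    rw [Real.cos_eq_cos_iff] at h1
    obtain ⟨k, hk | hk⟩ := h1
    · left
      refine ⟨k, ?_⟩
      have : (b : ℝ) - a = n * k := by
        field_simp at hk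
        linarith
      exact_mod_cast this
    · right
      refine ⟨k, ?_⟩
      have : (b : ℝ) + a = n * k := by
        field_simp at hk
        linarith
      exact_mod_cast this
  · rintro (⟨k, hk⟩ | ⟨k, hk⟩)
    · have h1 : (b : ℝ) - a = n * k := by exact_mod_cast hk
      have h2 : 2 * Real.pi * b / n = 2 * k * Real.pi + 2 * Real.pi * a / n := by
        field_simp
        linear_combination h1
      congr 1
      rw [Real.cos_eq_cos_iff]
      exact ⟨k, Or.inl h2⟩
    · have h1 : (b : ℝ) + a = n * k := by exact_mod_cast hk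
      have h2 : 2 * Real.pi * b / n = 2 * k * Real.pi - 2 * Real.pi * a / n := by
        field_simp
        linear_combination h1
      congr 1
      rw [Real.cos_eq_cos_iff]
      exact ⟨k, Or.inr h2⟩

/-- The quadratic `x² - 2`. -/
noncomputable def f2 : ℝ[X] := X ^ 2 - C 2

/-- The cubic `x³ - 3x`. -/
noncomputable def f3 : ℝ[X] := X ^ 3 - C 3 * X

lemma f2_psi (n : ℕ) (a : ℤ) : f2.eval (psi n a) = psi n (2 * a) := by
  unfold f2 psi
  have : 2 * Real.pi * ((2 * a : ℤ) : ℝ) / n = 2 * (2 * Real.pi * a / n) := by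
    push_cast; ring
  rw [this, Real.cos_two_mul]
  simp
  ring

lemma f3_psi (n : ℕ) (a : ℤ) : f3.eval (psi n a) = psi n (3 * a) := by
  unfold f3 psi
  have : 2 * Real.pi * ((3 * a : ℤ) : ℝ) / n = 3 * (2 * Real.pi * a / n) := by
    push_cast; ring
  rw [this, Real.cos_three_mul]
  simp
  ring

lemma iter_psi (n : ℕ) (r : ℤ) (f : ℝ[X]) (hf : ∀ a, f.eval (psi n a) = psi n (r * a)) (i : ℕ) :
    (fun x => f.eval x)^[i] (psi n 1) = psi n (r ^ i) := by
  induction i with
  | zero => simp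
  | succ i ih => rw [Function.iterate_succ_apply', ih, hf, pow_succ']

/-- Arithmetic hypotheses on `r` modulo `5^k`. -/
structure Good (k : ℕ) (r : ℤ) : Prop where
  neg_one : ((5 : ℤ) ^ (k + 1)) ∣ r ^ (2 * 5 ^ k) + 1
  order : orderOf ((r : ℤ) : ZMod (5 ^ (k + 1))) = 4 * 5 ^ k

lemma good_of (k : ℕ) (r : ℤ) (h5 : ¬ (5 : ℤ) ∣ r) (h1 : (5 : ℤ) ∣ r ^ 2 + 1)
    (h2 : ¬ (25 : ℤ) ∣ r ^ 4 - 1) : Good k r := by
  have p5 : Nat.Prime 5 := by norm_num
  have hI : Prime (5 : ℤ) := by exact_mod_cast Nat.prime_iff_prime_int.mp p5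
  have hneg : ((5 : ℤ) ^ (k + 1)) ∣ r ^ (2 * 5 ^ k) + 1 := by
    have hodd : Odd (5 ^ k) := Odd.pow (by decide)
    have h3 := Int.emultiplicity_pow_add_pow (p := 5) p5 (by decide) (x := r ^ 2) (y := 1)
      (by exact_mod_cast h1) (by
        intro h
        exact h5 (hI.dvd_of_dvd_pow (by exact_mod_cast h))) hodd
    rw [one_pow, ← pow_mul] at h3
    have h4 : ((k + 1 : ℕ) : ℕ∞) ≤ emultiplicity ((5 : ℕ) : ℤ) (r ^ (2 * 5 ^ k) + 1) := by
      rw [h3]
      have h5 : (1 : ℕ∞) ≤ emultiplicity ((5 : ℕ) : ℤ) (r ^ 2 + 1) := by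
        have := pow_dvd_iff_le_emultiplicity (a := ((5 : ℕ) : ℤ)) (b := r ^ 2 + 1) (k := 1)
        have h6 := this.mp (by rw [pow_one]; exact_mod_cast h1)
        exact_mod_cast h6
      have h6 : emultiplicity 5 (5 ^ k) = (k : ℕ∞) := by
        have : FiniteMultiplicity 5 (5 ^ k) := by
          rw [Nat.finiteMultiplicity_iff]; constructor
          · norm_num
          · positivity
        exact emultiplicity_pow_self (by norm_num) (by simp) k
      rw [h6]
      push_cast at h5 ⊢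
      rw [add_comm]
      gcongr
    have := pow_dvd_iff_le_emultiplicity.mpr h4
    exact_mod_cast this
  refine ⟨hneg, ?_⟩
  have hcast : ((r : ℤ) : ZMod (5 ^ (k + 1))) ^ (2 * 5 ^ k) = -1 := by
    have h : (((r ^ (2 * 5 ^ k) + 1 : ℤ)) : ZMod (5 ^ (k + 1))) = 0 := by
      rw [ZMod.intCast_zmod_eq_zero_iff_dvd]
      exact_mod_cast hneg
    push_cast at h
    exact eq_neg_of_add_eq_zero_left h
  have hne : ((-1 : ℤ) : ZMod (5 ^ (k + 1))) ≠ 1 := by
    intro h
    have h' : (((-1 : ℤ) - 1 : ℤ) : ZMod (5 ^ (k + 1))) = 0 := by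
      rw [Int.cast_sub, h]; simp
    rw [ZMod.intCast_zmod_eq_zero_iff_dvd] at h'
    have h6 : (5 : ℤ) ∣ -2 := by
      refine Dvd.dvd.trans ?_ (show ((5 ^ (k + 1) : ℕ) : ℤ) ∣ -2 by simpa using h')
      push_cast
      exact dvd_pow_self 5 (by omega)
    omega
  apply orderOf_eq_of_pow_and_pow_div_prime (by positivity)
  · rw [show 4 * 5 ^ k = (2 * 5 ^ k) * 2 by ring, pow_mul, hcast]; norm_num
  · intro p hp hpd
    have hp' : p = 2 ∨ (p = 5 ∧ 0 < k) := by
      rw [show 4 * 5 ^ k = 2 ^ 2 * 5 ^ k by norm_num] at hpd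
      rcases (Nat.Prime.dvd_mul hp).mp hpd with h | h
      · left
        exact (Nat.prime_dvd_prime_iff_eq hp Nat.prime_two).mp (hp.dvd_of_dvd_pow h)
      · right
        refine ⟨(Nat.prime_dvd_prime_iff_eq hp p5).mp (hp.dvd_of_dvd_pow h), ?_⟩
        rcases Nat.eq_zero_or_pos k with hk | hk
        · subst hk
          simp at h
          exact absurd h hp.ne_one
        · exact hk
    rcases hp' with rfl | ⟨rfl, hk⟩
    · rw [show 4 * 5 ^ k / 2 = 2 * 5 ^ k by omega, hcast]
      intro h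
      apply hne
      push_cast
      exact h
    · obtain ⟨m, rfl⟩ : ∃ m, k = m + 1 := ⟨k - 1, by omega⟩
      rw [show 4 * 5 ^ (m + 1) / 5 = 4 * 5 ^ m by rw [pow_succ]; omega]
      intro h
      have h' : (((r ^ (4 * 5 ^ m) - 1 : ℤ)) : ZMod (5 ^ (m + 1 + 1))) = 0 := by
        push_cast
        rw [h, sub_self]
      rw [ZMod.intCast_zmod_eq_zero_iff_dvd] at h'
      have h3 := Int.emultiplicity_pow_sub_pow (p := 5) p5 (by decide) (x := r ^ 4) (y := 1)
        (by
          have : r ^ 4 - 1 = (r ^ 2 + 1) * (r ^ 2 - 1) := by ring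
          rw [this]
          exact Dvd.dvd.mul_right (by exact_mod_cast h1) _) (by
          intro h
          exact h5 (hI.dvd_of_dvd_pow (by exact_mod_cast h))) (5 ^ m)
      rw [one_pow, ← pow_mul] at h3
      have h4 : ((m + 1 + 1 : ℕ) : ℕ∞) ≤ emultiplicity ((5 : ℕ) : ℤ) (r ^ (4 * 5 ^ m) - 1) := by
        rw [← pow_dvd_iff_le_emultiplicity]
        exact_mod_cast h'
      have h6 : emultiplicity 5 (5 ^ m) = (m : ℕ∞) :=
        emultiplicity_pow_self (by norm_num) (by simp) m
      have h7 : emultiplicity ((5 : ℕ) : ℤ) (r ^ 4 - 1) < 2 := by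
        by_contra hcon
        rw [not_lt] at hcon
        have h8 : ((2 : ℕ) : ℕ∞) ≤ emultiplicity ((5 : ℕ) : ℤ) (r ^ 4 - 1) := by exact_mod_cast hcon
        rw [← pow_dvd_iff_le_emultiplicity] at h8
        apply h2
        norm_num at h8
        exact h8
      rw [h3, h6] at h4
      have h9 : emultiplicity ((5 : ℕ) : ℤ) (r ^ 4 - 1) ≤ 1 := by
        rw [← one_add_one_eq_two] at h7
        exact (ENat.lt_add_one_iff (by simp)).mp h7
      have h10 : ((m + 1 + 1 : ℕ) : ℕ∞) ≤ ((1 + m : ℕ) : ℕ∞) := by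
        refine h4.trans ?_
        push_cast at h9 ⊢
        gcongr
      have h11 : m + 1 + 1 ≤ 1 + m := by exact_mod_cast h10
      omega

/-- The compressed set. -/
noncomputable def T (k : ℕ) (r : ℤ) : Finset ℝ :=
  (Finset.range (2 * 5 ^ k)).image (fun i => psi (5 ^ (k + 1)) (r ^ i))

lemma inj (k : ℕ) (r : ℤ) (h : Good k r) :
    Set.InjOn (fun i => psi (5 ^ (k + 1)) (r ^ i)) (Finset.range (2 * 5 ^ k)) := by
  have key : ∀ i j, i < j → j < 2 * 5 ^ k →
      psi (5 ^ (k + 1)) (r ^ i) ≠ psi (5 ^ (k + 1)) (r ^ j) := by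
    intro i j hij hj heq
    rw [psi_eq_iff (by positivity)] at heq
    obtain ⟨t, rfl⟩ : ∃ t, j = i + t := ⟨j - i, by omega⟩
    have hu : IsUnit ((r : ℤ) : ZMod (5 ^ (k + 1))) := by
      apply IsUnit.of_pow_eq_one (n := 4 * 5 ^ k) _ (by positivity)
      rw [← h.order]; exact pow_orderOf_eq_one _
    have h2 : ((r : ℤ) : ZMod (5 ^ (k + 1))) ^ (2 * t) = 1 := by
      have h3 : ((r : ℤ) : ZMod (5 ^ (k + 1))) ^ t = 1 ∨
          ((r : ℤ) : ZMod (5 ^ (k + 1))) ^ t = -1 := by
        rcases heq with heq | heq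
        · left
          have h' := (ZMod.intCast_zmod_eq_zero_iff_dvd _ _).mpr heq
          push_cast at h'
          rw [pow_add _ i t] at h'
          have h4 : ((r : ℤ) : ZMod (5 ^ (k + 1))) ^ i *
              (((r : ℤ) : ZMod (5 ^ (k + 1))) ^ t - 1) = 0 := by linear_combination h'
          have := ((hu.pow i).mul_right_eq_zero).mp h4
          exact sub_eq_zero.mp this
        · right
          have h' := (ZMod.intCast_zmod_eq_zero_iff_dvd _ _).mpr heq
          push_cast at h'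
          rw [pow_add _ i t] at h'
          have h4 : ((r : ℤ) : ZMod (5 ^ (k + 1))) ^ i *
              (((r : ℤ) : ZMod (5 ^ (k + 1))) ^ t + 1) = 0 := by linear_combination h'
          have := ((hu.pow i).mul_right_eq_zero).mp h4
          exact eq_neg_of_add_eq_zero_left this
      rw [mul_comm, pow_mul]
      rcases h3 with h3 | h3 <;> rw [h3] <;> norm_num
    have h3 := orderOf_dvd_of_pow_eq_one h2
    rw [h.order] at h3
    have h4 : 2 * 5 ^ k ∣ t := by
      rw [show 4 * 5 ^ k = 2 * (2 * 5 ^ k) by ring] at h3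
      exact Nat.dvd_of_mul_dvd_mul_left (by norm_num) h3
    have := Nat.le_of_dvd (by omega) h4
    omega
  intro i hi j hj heq
  simp only [Finset.coe_range, Set.mem_Iio] at hi hj
  rcases lt_trichotomy i j with hlt | hlt | hlt
  · exact absurd heq (key i j hlt hj)
  · exact hlt
  · exact absurd heq.symm (key j i hlt hi)

lemma card_T (k : ℕ) (r : ℤ) (h : Good k r) : (T k r).card = 2 * 5 ^ k := by
  unfold T
  rw [Finset.card_image_of_injOn (inj k r h), Finset.card_range]

lemma compresses (k : ℕ) (r : ℤ) (h : Good k r) (f : ℝ[X])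
    (hf : ∀ a, f.eval (psi (5 ^ (k + 1)) a) = psi (5 ^ (k + 1)) (r * a)) :
    Compresses f (T k r) := by
  refine ⟨psi (5 ^ (k + 1)) 1, ?_, ?_⟩
  · unfold T
    rw [Finset.mem_image]
    exact ⟨0, by simp, by simp⟩
  · rw [card_T k r h]
    unfold T
    apply Finset.image_congr
    intro i _
    exact iter_psi _ r f hf i

lemma T_eq (k : ℕ) (r s : ℤ) (hr : Good k r) (hs : Good k s) : T k r = T k s := by
  apply Finset.eq_of_subset_of_card_le
  · intro x hx
    unfold T at hx ⊢
    rw [Finset.mem_image] at hx ⊢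
    obtain ⟨i, -, rfl⟩ := hx
    -- r ^ i is a power of s
    have hn : (5 ^ (k + 1)) ≠ 0 := by positivity
    have : NeZero (5 ^ (k + 1)) := ⟨hn⟩
    have unit_of : ∀ t : ℤ, Good k t → IsUnit ((t : ℤ) : ZMod (5 ^ (k + 1))) := by
      intro t ht
      apply IsUnit.of_pow_eq_one (n := 4 * 5 ^ k) _ (by positivity)
      rw [← ht.order]; exact pow_orderOf_eq_one _
    obtain ⟨us, hus⟩ := unit_of s hs
    obtain ⟨ur, hur⟩ := unit_of r hr
    have hcard : Nat.card (ZMod (5 ^ (k + 1)))ˣ = 4 * 5 ^ k := by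
      rw [Nat.card_eq_fintype_card, ZMod.card_units_eq_totient, Nat.totient_prime_pow_succ
        (by norm_num)]
      ring
    have hord : orderOf us = Nat.card (ZMod (5 ^ (k + 1)))ˣ := by
      rw [hcard, ← hs.order, ← hus, orderOf_units]
    have htop : Subgroup.zpowers us = ⊤ := by
      apply Subgroup.eq_top_of_card_eq
      rw [Nat.card_zpowers, hord]
    have hmem : ur ^ i ∈ Subgroup.zpowers us := by rw [htop]; trivial
    rw [← mem_powers_iff_mem_zpowers] at hmem
    obtain ⟨m, hm⟩ := hmem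
    have hm' : ((s : ℤ) : ZMod (5 ^ (k + 1))) ^ m = ((r : ℤ) : ZMod (5 ^ (k + 1))) ^ i := by
      rw [← hus, ← hur]
      exact_mod_cast congrArg Units.val hm
    refine ⟨m % (2 * 5 ^ k), by
      rw [Finset.mem_range]; exact Nat.mod_lt _ (by positivity), ?_⟩
    rw [psi_eq_iff (by positivity)]
    have hneg : ((s : ℤ) : ZMod (5 ^ (k + 1))) ^ (2 * 5 ^ k) = -1 := by
      have h : (((s ^ (2 * 5 ^ k) + 1 : ℤ)) : ZMod (5 ^ (k + 1))) = 0 := by
        rw [ZMod.intCast_zmod_eq_zero_iff_dvd]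
        exact_mod_cast hs.neg_one
      push_cast at h
      exact eq_neg_of_add_eq_zero_left h
    have h1 : ((s : ℤ) : ZMod (5 ^ (k + 1))) ^ m =
        (-1) ^ (m / (2 * 5 ^ k)) * ((s : ℤ) : ZMod (5 ^ (k + 1))) ^ (m % (2 * 5 ^ k)) := by
      conv_lhs => rw [← Nat.div_add_mod m (2 * 5 ^ k)]
      rw [pow_add _ (2 * 5 ^ k * (m / (2 * 5 ^ k))) _, pow_mul _ (2 * 5 ^ k) (m / (2 * 5 ^ k)), hneg]
    rw [hm'] at h1
    rcases neg_one_pow_eq_or (ZMod (5 ^ (k + 1))) (m / (2 * 5 ^ k)) with h2 | h2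
    · left
      rw [h2, one_mul] at h1
      rw [← ZMod.intCast_zmod_eq_zero_iff_dvd]
      push_cast
      rw [h1, sub_self]
    · right
      rw [h2] at h1
      rw [← ZMod.intCast_zmod_eq_zero_iff_dvd]
      push_cast
      rw [h1]
      ring
  · rw [card_T k r hr, card_T k s hs]

lemma f2_deg : f2.natDegree = 2 := by
  unfold f2; compute_degree!

lemma f3_deg : f3.natDegree = 3 := by
  unfold f3; compute_degree!

/-- For no `K ≥ 3` does a threshold `M(K)` exist beyond which every `K`-compressible set has at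
most one compressing polynomial of degree between `2` and `K`. -/
theorem result (K : ℕ) (hK : 3 ≤ K) :
    ¬ ∃ M : ℕ, ∀ S : Finset ℝ, M ≤ S.card → KCompressible K S → AtMostOne K S := by
  rintro ⟨M, hM⟩
  have g2 : Good M 2 := good_of M 2 (by decide) (by decide) (by decide)
  have g3 : Good M 3 := good_of M 3 (by decide) (by decide) (by decide)
  have hc2 : Compresses f2 (T M 2) := compresses M 2 g2 f2 (f2_psi _)
  have hc3 : Compresses f3 (T M 2) := by
    rw [T_eq M 2 3 g2 g3]
    exact compresses M 3 g3 f3 (f3_psi _)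
  have hcard : M ≤ (T M 2).card := by
    rw [card_T M 2 g2]
    have : M < 5 ^ M := Nat.lt_pow_self (by norm_num)
    omega
  have := hM (T M 2) hcard ⟨f2, by rw [f2_deg]; omega, hc2⟩ f2 f3 (by rw [f2_deg])
    (by rw [f2_deg]; omega) (by rw [f3_deg]; omega) (by rw [f3_deg]; omega) hc2 hc3
  have h23 := congrArg natDegree this
  rw [f2_deg, f3_deg] at h23
  omega

end Pool.Agent.Results.MP_29b953_an.NoUniqueness
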